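import Pool.Agent.W500.CS.Stm2

/-!
# Project CQ, part BRANCH: global branches over a convex set
-/

set_option autoImplicit false

open Metric Set Filter Topology

namespace Pool.Agent.W923.CQ.BRANCH

section aux
variable {T : Type*} [TopologicalSpace T] {d : ℕ} (g : T → ℂ) (A : Fin d → T → ℂ)
  (hg : Continuous g) (hA : ∀ i, Continuous (A i)) (hne : ∀ i j, i ≠ j → ∀ t, A i t ≠ A j t)
  (hex : ∀ t, ∃ i, g t = A i t)
include hg hA hne hex

theorem idx_open (i : Fin d) : IsOpen {t | g t = A i t} := by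
  have h1 : {t | g t = A i t} = (⋃ j ∈ {j : Fin d | j ≠ i}, {t | g t = A j t})ᶜ := by
    ext t
    simp only [mem_setOf_eq, mem_compl_iff, mem_iUnion, exists_prop, not_exists, not_and]
    constructor
    · intro h j hj h'
      exact hne j i hj t (h'.symm.trans h)
    · intro h
      obtain ⟨j, hj⟩ := hex t
      by_cases hji : j = i
      · rw [← hji]; exact hj
      · exact absurd hj (h j hji)
  rw [h1, isOpen_compl_iff]
  exact (Set.toFinite _).isClosed_biUnion (fun j _ => isClosed_eq hg (hA j))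

theorem idx_const [PreconnectedSpace T] (t₀ : T) (i : Fin d) (h : g t₀ = A i t₀) (t : T) :
    g t = A i t := by
  have h1 : IsClopen {t | g t = A i t} := ⟨isClosed_eq hg (hA i), idx_open g A hg hA hne hex i⟩
  have h2 : {t | g t = A i t} = univ := h1.eq_univ ⟨t₀, h⟩
  have h3 : t ∈ {t | g t = A i t} := h2 ▸ mem_univ t
  exact h3

end aux

variable (H : Set ℂ) (Z : ℂ → Set ℂ)

/-- the covering space -/
abbrev E : Type := {p : H × ℂ // p.2 ∈ Z p.1}

/-- the projection -/
def pr (e : E H Z) : H := e.1.1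

theorem covering (d : ℕ) (hloc : ∀ ζ ∈ H, ∃ r > 0, ball ζ r ⊆ H ∧ ∃ A : Fin d → ℂ → ℂ,
      (∀ i, ContinuousOn (A i) (ball ζ r)) ∧
      (∀ i j, i ≠ j → ∀ w ∈ ball ζ r, A i w ≠ A j w) ∧
      (∀ w ∈ ball ζ r, Z w = {x | ∃ i, x = A i w})) : IsCoveringMap (pr H Z) := by
  intro ζ
  obtain ⟨r, hr, hb, A, hA, hne, hZ⟩ := hloc ζ ζ.2
  have hpr : Continuous (pr H Z) := continuous_fst.comp continuous_subtype_val
  refine IsEvenlyCovered.to_isEvenlyCovered_preimage (I := Fin d) ?_
  set U : Set H := {w : H | (w : ℂ) ∈ ball (ζ : ℂ) r} with hU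
  have hUo : IsOpen U := isOpen_ball.preimage continuous_subtype_val
  have hpU : IsOpen (pr H Z ⁻¹' U) := hUo.preimage hpr
  -- the index
  have hex : ∀ e : pr H Z ⁻¹' U, ∃ i, e.1.1.2 = A i e.1.1.1 := by
    intro e
    have h1 : e.1.1.2 ∈ Z e.1.1.1 := e.1.2
    have h2 : Z e.1.1.1 = {x | ∃ i, x = A i e.1.1.1} := hZ _ e.2
    rw [h2] at h1
    exact h1
  have hcA : ∀ i, Continuous (fun e : pr H Z ⁻¹' U => A i e.1.1.1) := by
    intro i
    have h2 : Continuous (fun e : pr H Z ⁻¹' U => ((e.1.1.1 : H) : ℂ)) :=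
      continuous_subtype_val.comp (continuous_fst.comp
        (continuous_subtype_val.comp continuous_subtype_val))
    exact (hA i).comp_continuous h2 (fun e => e.2)
  have hcg : Continuous (fun e : pr H Z ⁻¹' U => e.1.1.2) :=
    continuous_snd.comp (continuous_subtype_val.comp continuous_subtype_val)
  have hne' : ∀ i j, i ≠ j → ∀ e : pr H Z ⁻¹' U, A i e.1.1.1 ≠ A j e.1.1.1 :=
    fun i j hij e => hne i j hij _ e.2
  choose idx hidx using hex
  have huniq : ∀ (e : pr H Z ⁻¹' U) (i : Fin d), e.1.1.2 = A i e.1.1.1 → idx e = i := by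
    intro e i h
    by_contra hc
    exact hne' _ _ hc e ((hidx e).symm.trans h)
  have hci : Continuous idx := by
    refine continuous_discrete_rng.2 fun i => ?_
    have h3 : idx ⁻¹' {i} = {e | e.1.1.2 = A i e.1.1.1} := by
      ext e
      constructor
      · intro h
        have h4 : idx e = i := h
        rw [mem_setOf_eq, ← h4]
        exact hidx e
      · intro h
        exact huniq e i h
    rw [h3]
    exact idx_open (fun e : pr H Z ⁻¹' U => e.1.1.2) (fun i e => A i e.1.1.1) hcg hcA hne'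
      (fun e => ⟨idx e, hidx e⟩) i
  have hmem : ∀ (w : U) (i : Fin d), A i w.1 ∈ Z w.1 := by
    intro w i
    rw [hZ _ w.2]
    exact ⟨i, rfl⟩
  refine ⟨inferInstance, U, mem_ball_self hr, hUo, hpU,
    { toFun := fun e => (⟨pr H Z e.1, e.2⟩, idx e)
      invFun := fun q => ⟨⟨(q.1.1, A q.2 q.1.1), hmem q.1 q.2⟩, q.1.2⟩
      left_inv := ?_
      right_inv := ?_
      continuous_toFun := ?_
      continuous_invFun := ?_ }, fun e => rfl⟩
  · intro e
    apply Subtype.ext
    apply Subtype.ext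
    exact Prod.ext rfl (hidx e).symm
  · intro q
    refine Prod.ext rfl ?_
    exact huniq _ _ rfl
  · exact (Continuous.subtype_mk (hpr.comp continuous_subtype_val) _).prodMk hci
  · rw [continuous_prod_of_discrete_right]
    intro i
    refine Continuous.subtype_mk (Continuous.subtype_mk ?_ _) _
    refine Continuous.prodMk continuous_subtype_val ?_
    exact (hA i).comp_continuous (continuous_subtype_val.comp continuous_subtype_val)
      (fun w => w.2)

theorem main : Pool.Agent.W500.CS.S_BRANCH := by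
  intro H Z d hH hconv hHne hloc
  obtain ⟨z₀, hz₀⟩ := hHne
  have hcov : IsCoveringMap (pr H Z) := by
    refine covering H Z d fun ζ hζ => ?_
    obtain ⟨r, hr, hb, A, hA, hne, hZ⟩ := hloc ζ hζ
    exact ⟨r, hr, hb, A, fun i => (hA i).continuousOn, hne, hZ⟩
  have : ContractibleSpace H := hconv.contractibleSpace ⟨z₀, hz₀⟩
  have : LocallyPathConnectedSpace H := hH.locallyPathConnectedSpace
  obtain ⟨r₀, hr₀, hb₀, A₀, hA₀, hne₀, hZ₀⟩ := hloc z₀ hz₀
  have hm₀ : ∀ i, A₀ i z₀ ∈ Z z₀ := fun i => by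
    rw [hZ₀ z₀ (mem_ball_self hr₀)]
    exact ⟨i, rfl⟩
  have hlift : ∀ i : Fin d, ∃ F : C(H, E H Z), F ⟨z₀, hz₀⟩ = ⟨(⟨z₀, hz₀⟩, A₀ i z₀), hm₀ i⟩ ∧
      pr H Z ∘ F = (ContinuousMap.id H) := fun i =>
    (hcov.existsUnique_continuousMap_lifts (ContinuousMap.id H) ⟨z₀, hz₀⟩
      ⟨(⟨z₀, hz₀⟩, A₀ i z₀), hm₀ i⟩ rfl).exists
  choose F hF0 hFp using hlift
  have hFp' : ∀ i (w : H), (F i w).1.1 = w := fun i w => congrFun (hFp i) w
  have hFZ : ∀ i (w : H), (F i w).1.2 ∈ Z w := fun i w => by
    have h1 := (F i w).2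
    rw [hFp' i w] at h1
    exact h1
  have hFne : ∀ i j, i ≠ j → ∀ w : H, (F i w).1.2 ≠ (F j w).1.2 := by
    intro i j hij w h
    have h1 : F i w = F j w := by
      apply Subtype.ext
      exact Prod.ext ((hFp' i w).trans (hFp' j w).symm) h
    have h2 : (F i : H → E H Z) = F j :=
      hcov.eq_of_comp_eq (F i).continuous (F j).continuous ((hFp i).trans (hFp j).symm) w h1
    have h3 : F i ⟨z₀, hz₀⟩ = F j ⟨z₀, hz₀⟩ := congrFun h2 _
    rw [hF0 i, hF0 j] at h3
    have h4 : A₀ i z₀ = A₀ j z₀ := congrArg (fun e : E H Z => e.1.2) h3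
    exact hne₀ i j hij z₀ (mem_ball_self hr₀) h4
  classical
  set B : Fin d → ℂ → ℂ := fun i w => if h : w ∈ H then (F i ⟨w, h⟩).1.2 else 0 with hB
  have hBF : ∀ i w (h : w ∈ H), B i w = (F i ⟨w, h⟩).1.2 := fun i w h => dif_pos h
  refine ⟨B, ?_, ?_, ?_⟩
  · intro i ζ hζ
    obtain ⟨r, hr, hb, A, hA, hne, hZ⟩ := hloc ζ hζ
    have hmem : B i ζ ∈ Z ζ := by
      rw [hBF i ζ hζ]
      exact hFZ i ⟨ζ, hζ⟩
    rw [hZ ζ (mem_ball_self hr)] at hmem
    obtain ⟨j, hj⟩ := hmem
    have hpc : PreconnectedSpace (ball ζ r) :=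
      isPreconnected_iff_preconnectedSpace.1 (convex_ball ζ r).isPreconnected
    have hinc : Continuous (fun t : ball ζ r => (⟨t.1, hb t.2⟩ : H)) :=
      Continuous.subtype_mk continuous_subtype_val _
    have heq : ∀ t : ball ζ r, B i t = A j t := by
      refine idx_const (fun t : ball ζ r => B i t) (fun j t => A j t) ?_ ?_ ?_ ?_
        ⟨ζ, mem_ball_self hr⟩ j hj
      · have h1 : (fun t : ball ζ r => B i t) =
            fun t : ball ζ r => (F i ⟨t.1, hb t.2⟩).1.2 := by
          funext t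
          exact hBF i t (hb t.2)
        rw [h1]
        exact continuous_snd.comp (continuous_subtype_val.comp ((F i).continuous.comp hinc))
      · intro j
        exact (hA j).continuousOn.comp_continuous continuous_subtype_val (fun t => t.2)
      · intro a b hab t
        exact hne a b hab t t.2
      · intro t
        have h1 : B i t ∈ Z t := by
          rw [hBF i t (hb t.2)]
          exact hFZ i ⟨t, hb t.2⟩
        rw [hZ t t.2] at h1
        exact h1
    have hd : DifferentiableAt ℂ (A j) ζ := (hA j).differentiableAt (ball_mem_nhds ζ hr)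
    refine (hd.congr_of_eventuallyEq ?_).differentiableWithinAt
    filter_upwards [ball_mem_nhds ζ hr] with t ht
    exact heq ⟨t, ht⟩
  · intro i j hij w hw
    rw [hBF i w hw, hBF j w hw]
    exact hFne i j hij ⟨w, hw⟩
  · intro w hw
    obtain ⟨r, hr, hb, A, hA, hne, hZ⟩ := hloc w hw
    have hZw := hZ w (mem_ball_self hr)
    have hmem : ∀ i, ∃ j, B i w = A j w := by
      intro i
      have h1 : B i w ∈ Z w := by
        rw [hBF i w hw]
        exact hFZ i ⟨w, hw⟩
      rw [hZw] at h1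
      exact h1
    choose σ hσ using hmem
    have hinj : Function.Injective σ := by
      intro i j hij
      by_contra hc
      have h1 := hFne i j hc ⟨w, hw⟩
      rw [← hBF i w hw, ← hBF j w hw, hσ i, hσ j, hij] at h1
      exact h1 rfl
    have hsurj : Function.Surjective σ := Finite.injective_iff_surjective.1 hinj
    rw [hZw]
    ext x
    constructor
    · rintro ⟨j, rfl⟩
      obtain ⟨i, rfl⟩ := hsurj j
      exact ⟨i, (hσ i).symm⟩
    · rintro ⟨i, rfl⟩
      exact ⟨σ i, hσ i⟩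

end Pool.Agent.W923.CQ.BRANCH
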